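import Mathlib

set_option autoImplicit false

namespace Pool.Agent.Results.MP_429122_al.AllReductions

/-- J is a reduction of I. -/
def IsReduction {S : Type*} [CommRing S] (J I : Ideal S) : Prop :=
  J ≤ I ∧ ∃ n : ℕ, J * I ^ n = I ^ (n + 1)

/-- The core of I: the intersection of all reductions of I. -/
def core {S : Type*} [CommRing S] (I : Ideal S) : Ideal S := sInf {J | IsReduction J I}

lemma contracted {A : Type*} [CommRing A] (P : Ideal A) [hP : P.IsMaximal] (K : Ideal A) (N : ℕ)
    (hK : P ^ N ≤ K) (a : A)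
    (ha : algebraMap A (Localization.AtPrime P) a ∈ K.map (algebraMap A (Localization.AtPrime P))) :
    a ∈ K := by
  obtain ⟨s, hs, hsa⟩ := (IsLocalization.algebraMap_mem_map_algebraMap_iff P.primeCompl _ K a).1 ha
  have h1 : Ideal.span {s} ⊔ P = ⊤ := by
    by_contra h
    have := hP.eq_of_le h le_sup_right
    exact hs (this ▸ (le_sup_left : Ideal.span {s} ≤ Ideal.span {s} ⊔ P) (Ideal.mem_span_singleton_self s))
  have h2 : (1 : A) ∈ Ideal.span {s} ⊔ P ^ N := by rw [Ideal.sup_pow_eq_top h1]; trivial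
  obtain ⟨u, hu, v, hv, huv⟩ := Submodule.mem_sup.1 h2
  obtain ⟨c, rfl⟩ := Ideal.mem_span_singleton'.1 hu
  have : a = c * (s * a) + v * a := by linear_combination (-a) * huv
  rw [this]
  exact K.add_mem (K.mul_mem_left _ hsa) (K.mul_mem_right _ (hK hv))

lemma main {A : Type*} [CommRing A] (P : Ideal A) [hP : P.IsMaximal] :
    core (IsLocalRing.maximalIdeal (Localization.AtPrime P)) =
      (core P).map (algebraMap A (Localization.AtPrime P)) := by
  have hm := Localization.AtPrime.map_eq_maximalIdeal (I := P)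
  apply le_antisymm
  · rw [← IsLocalization.map_under P.primeCompl _ (core (IsLocalRing.maximalIdeal _))]
    apply Ideal.map_mono
    intro a ha
    refine Submodule.mem_sInf.2 fun J hJ => ?_
    obtain ⟨h1, n, h2⟩ := hJ
    apply contracted P J (n + 1) (h2 ▸ Ideal.mul_le_left)
    refine Submodule.mem_sInf.1 (Ideal.mem_comap.1 ha) _ ⟨hm ▸ Ideal.map_mono h1, n, ?_⟩
    rw [← hm, ← Ideal.map_pow, ← Ideal.map_pow, ← Ideal.map_mul, h2]
  · rw [Ideal.map_le_iff_le_comap]
    intro a ha
    refine Submodule.mem_sInf.2 fun J hJ => ?_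
    obtain ⟨h1, n, h2⟩ := hJ
    have h3 : Ideal.under A J ≤ P :=
      (Ideal.comap_mono h1).trans (Localization.AtPrime.under_maximalIdeal (I := P)).le
    have h4 : P ^ (n + 1) ≤ Ideal.under A J := by
      rw [← Ideal.map_le_iff_le_comap, Ideal.map_pow, hm, ← h2]
      exact Ideal.mul_le_left
    refine Submodule.mem_sInf.1 ha (Ideal.under A J) ⟨h3, n, le_antisymm ?_ fun x hx => ?_⟩
    · rw [pow_succ']; exact Ideal.mul_mono_left h3
    · apply contracted P _ (n + 1 + n)
      · rw [pow_add]; exact Ideal.mul_mono_left h4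
      · rw [Ideal.map_mul, IsLocalization.map_under P.primeCompl, Ideal.map_pow, hm, h2, ← hm,
          ← Ideal.map_pow]
        exact Ideal.mem_map_of_mem _ hx

theorem result (k A : Type*) [Field k] [Infinite k] [CommRing A] [Algebra k A]
    (𝒜 : ℕ → Submodule k A) [GradedAlgebra 𝒜]
    (h0 : Function.Bijective (algebraMap k (𝒜 0)))
    (hfg : ∃ s : Finset A, (∀ x ∈ s, x ∈ 𝒜 1) ∧ Algebra.adjoin k (s : Set A) = ⊤) :
    ∃ h : (HomogeneousIdeal.irrelevant 𝒜).toIdeal.IsPrime,
      core (IsLocalRing.maximalIdeal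
          (@Localization.AtPrime A _ (HomogeneousIdeal.irrelevant 𝒜).toIdeal h)) =
        (core (HomogeneousIdeal.irrelevant 𝒜).toIdeal).map
          (algebraMap A (@Localization.AtPrime A _ (HomogeneousIdeal.irrelevant 𝒜).toIdeal h)) := by
  have hP : (HomogeneousIdeal.irrelevant 𝒜).toIdeal.IsMaximal := by
    let e := RingEquiv.ofBijective _ h0
    have : (HomogeneousIdeal.irrelevant 𝒜).toIdeal =
        RingHom.ker (e.symm.toRingHom.comp (GradedRing.projZeroRingHom' 𝒜)) := by
      ext x
      rw [HomogeneousIdeal.mem_iff, HomogeneousIdeal.mem_irrelevant_iff, RingHom.mem_ker]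
      rw [RingHom.comp_apply, RingEquiv.toRingHom_eq_coe, RingHom.coe_coe, map_eq_zero_iff _ e.symm.injective,
        Subtype.ext_iff, GradedRing.coe_projZeroRingHom'_apply]
      rfl
    rw [this]
    exact RingHom.ker_isMaximal_of_surjective _
      (e.symm.surjective.comp (GradedRing.projZeroRingHom'_surjective 𝒜))
  exact ⟨hP.isPrime, main _⟩

end Pool.Agent.Results.MP_429122_al.AllReductions
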