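import Mathlib

set_option autoImplicit false

namespace Pool.Agent.Results.MP_429122_al.GradedCore

open MvPolynomial

/-- J is a reduction of I. -/
def IsReduction {S : Type*} [CommRing S] (J I : Ideal S) : Prop :=
  J ≤ I ∧ ∃ n : ℕ, J * I ^ n = I ^ (n + 1)

/-- The core of I: the intersection of all reductions of I. -/
def core {S : Type*} [CommRing S] (I : Ideal S) : Ideal S := sInf {J | IsReduction J I}

variable {k : Type*} [Field k]

/-- A homogeneous ideal of k[X0,..,X3]: it contains the homogeneous components of its elements. -/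
def Homog (J : Ideal (MvPolynomial (Fin 4) k)) : Prop :=
  ∀ f ∈ J, ∀ d : ℕ, homogeneousComponent d f ∈ J

/-- The ideal A_+ of A = k[X0,..,X3]/I, generated by the classes of the variables. -/
noncomputable abbrev plus (I : Ideal (MvPolynomial (Fin 4) k)) : Ideal (MvPolynomial (Fin 4) k ⧸ I) :=
  (idealOfVars (Fin 4) k).map (Ideal.Quotient.mk I)

/-- The intersection of the homogeneous reductions of A_+ in A = k[X0,..,X3]/I. -/
noncomputable def gradedCore (I : Ideal (MvPolynomial (Fin 4) k)) :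
    Ideal (MvPolynomial (Fin 4) k ⧸ I) :=
  sInf {J | IsReduction J (plus I) ∧ Homog (J.comap (Ideal.Quotient.mk I))}

noncomputable def gens : Fin 6 → MvPolynomial (Fin 4) k :=
  ![X 1 ^ 3, X 2 ^ 3, X 3 ^ 3, X 0 * (X 1 * X 2 * X 3 ^ 2 + X 1 ^ 2 * X 2 ^ 2),
    X 0 * (X 1 ^ 2 * X 3 ^ 2), X 0 * (X 1 ^ 2 * X 2 * X 3)]

noncomputable def rel (k : Type*) [Field k] : Ideal (MvPolynomial (Fin 4) k) :=
  Ideal.span (Set.range gens)

lemma mem_rel (u : Fin 6 → MvPolynomial (Fin 4) k) (f : MvPolynomial (Fin 4) k)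
    (h : f = u 0 * X 1 ^ 3 + u 1 * X 2 ^ 3 + u 2 * X 3 ^ 3 +
      u 3 * (X 0 * (X 1 * X 2 * X 3 ^ 2 + X 1 ^ 2 * X 2 ^ 2)) + u 4 * (X 0 * (X 1 ^ 2 * X 3 ^ 2)) +
      u 5 * (X 0 * (X 1 ^ 2 * X 2 * X 3))) : f ∈ rel k :=
  Ideal.mem_span_range_iff_exists_fun.2 ⟨u, by rw [h]; simp [Fin.sum_univ_succ, gens]; ring⟩

lemma memM (f : MvPolynomial (Fin 4) k) : f ∈ idealOfVars (Fin 4) k ↔ coeff 0 f = 0 := by
  rw [← pow_one (idealOfVars _ _), mem_pow_idealOfVars_iff']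
  simp [Finsupp.degree_eq_zero_iff]

lemma XM (i : Fin 4) : (X i : MvPolynomial (Fin 4) k) ∈ idealOfVars (Fin 4) k :=
  Ideal.subset_span ⟨i, rfl⟩

lemma homog_rel : Homog (rel k) := by
  let _ := MvPolynomial.gradedAlgebra (σ := Fin 4) (R := k)
  have h : (rel k).IsHomogeneous (homogeneousSubmodule (Fin 4) k) := by
    apply Ideal.homogeneous_span
    have x := fun i => isHomogeneous_X k (σ := Fin 4) i
    rintro _ ⟨i, rfl⟩
    fin_cases i
    · exact ⟨_, (x 1).pow 3⟩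
    · exact ⟨_, (x 2).pow 3⟩
    · exact ⟨_, (x 3).pow 3⟩
    · exact ⟨_, (x 0).mul ((((x 1).mul (x 2)).mul ((x 3).pow 2)).add (((x 1).pow 2).mul ((x 2).pow 2)))⟩
    · exact ⟨_, (x 0).mul (((x 1).pow 2).mul ((x 3).pow 2))⟩
    · exact ⟨_, (x 0).mul ((((x 1).pow 2).mul (x 2)).mul (x 3))⟩
  exact fun f hf d => homogeneousComponent_mem_of_mem h hf d

lemma rel_le : rel k ≤ idealOfVars (Fin 4) k := by
  rw [rel, Ideal.span_le]
  rintro _ ⟨i, rfl⟩
  rw [SetLike.mem_coe, memM, ← constantCoeff_eq]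
  fin_cases i <;> simp [gens]

lemma linear (J : Ideal (MvPolynomial (Fin 4) k)) (hI : rel k ≤ J) (c : Fin 4 → k) (hc : c 0 ≠ 0)
    (h : ∑ i, c i • (X i : MvPolynomial (Fin 4) k) ∈ J) :
    X 0 * (X 1 * X 2 * X 3 ^ 2) ∈ J := by
  simp only [Fin.sum_univ_four, smul_eq_C_mul] at h
  have key : ∀ (e : k) (B : MvPolynomial (Fin 4) k), e ≠ 0 →
      C (c 0 * e) * (X 0 * (X 1 * X 2 * X 3 ^ 2)) -
        (C (c 0) * X 0 + C (c 1) * X 1 + C (c 2) * X 2 + C (c 3) * X 3) * B ∈ rel k →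
      X 0 * (X 1 * X 2 * X 3 ^ 2) ∈ J := by
    intro e B he hB
    have := J.add_mem (hI hB) (J.mul_mem_right B h)
    rw [sub_add_cancel] at this
    exact (J.unit_mul_mem_iff_mem ((mul_ne_zero hc he).isUnit.map C)).1 this
  by_cases h2 : c 2 = 0
  · by_cases h3 : c 3 = 0
    · refine key 1 (-(X 1 ^ 2 * X 2 ^ 2)) one_ne_zero
        (mem_rel ![C (c 1) * X 2 ^ 2, 0, 0, C (c 0), 0, 0] _ ?_)
      simp [h2, h3]; ring
    · refine key (c 3) (C (c 3) * (X 1 * X 2 * X 3 ^ 2) - C (c 1) * (X 1 ^ 2 * X 2 * X 3)) h3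
        (mem_rel ![C (c 1) ^ 2 * X 2 * X 3, 0, -C (c 3) ^ 2 * X 1 * X 2, 0, 0, C (c 0) * C (c 1)] _ ?_)
      simp [h2]; ring
  · refine key (c 2 ^ 2) (-(X 1 ^ 2 * (C (c 3) ^ 2 * X 3 ^ 2 - C (c 2) * C (c 3) * X 2 * X 3 +
        C (c 2) ^ 2 * X 2 ^ 2))) (pow_ne_zero 2 h2)
      (mem_rel ![C (c 1) * (C (c 3) ^ 2 * X 3 ^ 2 - C (c 2) * C (c 3) * X 2 * X 3 +
        C (c 2) ^ 2 * X 2 ^ 2), C (c 2) ^ 3 * X 1 ^ 2, C (c 3) ^ 3 * X 1 ^ 2, C (c 0) * C (c 2) ^ 2,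
        C (c 0) * C (c 3) ^ 2, -C (c 0) * C (c 2) * C (c 3)] _ ?_)
    simp; ring

lemma graded (J : Ideal (MvPolynomial (Fin 4) k)) (hI : rel k ≤ J) (hM : J ≤ idealOfVars (Fin 4) k)
    (hJ : Homog J) (n : ℕ) (h : X 0 ^ (n + 1) ∈ J * idealOfVars (Fin 4) k ^ n ⊔ rel k) :
    X 0 * (X 1 * X 2 * X 3 ^ 2) ∈ J := by
  by_contra hg
  let π : MvPolynomial (Fin 4) k →ₐ[k] Polynomial k := aeval ![Polynomial.X, 0, 0, 0]
  have h1 : (idealOfVars (Fin 4) k).map π ≤ Ideal.span {Polynomial.X} := by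
    rw [Ideal.map_le_iff_le_comap, Ideal.span_le]
    rintro _ ⟨i, rfl⟩
    fin_cases i <;> simp [π]
  have h2 : (rel k).map π ≤ ⊥ := by
    rw [Ideal.map_le_iff_le_comap, rel, Ideal.span_le]
    rintro _ ⟨i, rfl⟩
    fin_cases i <;> simp [π, gens]
  have h3 : J.map π ≤ Ideal.span {Polynomial.X} ^ 2 := by
    rw [Ideal.map_le_iff_le_comap]
    intro f hf
    have a := homogeneousComponent_mem 1 f
    rw [homogeneousSubmodule_one_eq_span_X, Submodule.mem_span_range_iff_exists_fun] at a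
    obtain ⟨c, hc⟩ := a
    have c0 : c 0 = 0 := by
      by_contra c0
      exact hg (linear J hI c c0 (hc ▸ hJ f hf 1))
    have b : f - homogeneousComponent 1 f ∈ idealOfVars (Fin 4) k ^ 2 := by
      rw [mem_pow_idealOfVars_iff']
      intro d hd
      rw [coeff_sub, coeff_homogeneousComponent]
      split_ifs with e
      · simp
      · have : d = 0 := (Finsupp.degree_eq_zero_iff d).1 (by omega)
        rw [this, (memM f).1 (hM hf), sub_zero]
    have := Ideal.pow_right_mono h1 2 (Ideal.map_pow π _ 2 ▸ Ideal.mem_map_of_mem π b)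
    rw [← hc] at this
    simpa [π, Fin.sum_univ_four, c0] using this
  have h4 := Ideal.mem_map_of_mem π h
  rw [Ideal.map_sup, Ideal.map_mul, Ideal.map_pow] at h4
  have h5 := sup_le (Ideal.mul_mono h3 (Ideal.pow_right_mono h1 n)) (h2.trans bot_le) h4
  rw [← pow_add, Ideal.span_singleton_pow, Ideal.mem_span_singleton, Polynomial.X_pow_dvd_iff] at h5
  simpa [π] using h5 (n + 1) (by omega)

lemma red {S : Type*} [CommRing S] (J H : Ideal S) (m : ℕ) :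
    (J ⊔ H) ^ (m + 1) ≤ J * (J ⊔ H) ^ m ⊔ H ^ (m + 1) := by
  induction m with
  | zero => simp
  | succ m ih =>
    rw [pow_succ]
    refine (Ideal.mul_mono_left ih).trans ?_
    rw [Ideal.sup_mul, mul_assoc, ← pow_succ, Ideal.mul_sup, ← pow_succ, ← sup_assoc]
    refine sup_le_sup_right (sup_le le_rfl ?_) _
    rw [mul_comm]
    exact Ideal.mul_mono_right (Ideal.pow_right_mono le_sup_right _)

lemma redS {S : Type*} [CommRing S] (y : Fin 4 → S) (h1 : y 1 ^ 3 = 0) (h2 : y 2 ^ 3 = 0)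
    (h3 : y 3 ^ 3 = 0) :
    IsReduction (Ideal.span {y 0 + (y 1 * y 2 - y 3 ^ 2)}) (Ideal.span (Set.range y)) := by
  have hy : ∀ i, y i ∈ Ideal.span (Set.range y) := fun i => Ideal.subset_span ⟨i, rfl⟩
  have hs : ∀ f ∈ Ideal.span (Set.range y), Ideal.span {f} ≤ Ideal.span (Set.range y) :=
    fun f hf => (Ideal.span_singleton_le_iff_mem _).2 hf
  have hq := hs _ (add_mem (hy 0) (sub_mem (Ideal.mul_mem_left _ (y 1) (hy 2))
    (Ideal.pow_mem_of_mem _ (hy 3) 2 two_pos)))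
  have y0 := Ideal.mem_span_singleton_self (y 0 + (y 1 * y 2 - y 3 ^ 2))
  generalize Ideal.span {y 0 + (y 1 * y 2 - y 3 ^ 2)} = J at hq y0 ⊢
  obtain ⟨H, hH⟩ : ∃ H, H = Ideal.span {y 1} ⊔ (Ideal.span {y 2} ⊔ Ideal.span {y 3}) := ⟨_, rfl⟩
  have y1 : y 1 ∈ H := hH ▸ Ideal.mem_sup_left (Ideal.mem_span_singleton_self _)
  have y2 : y 2 ∈ H :=
    hH ▸ Ideal.mem_sup_right (Ideal.mem_sup_left (Ideal.mem_span_singleton_self _))
  have y3 : y 3 ∈ H :=
    hH ▸ Ideal.mem_sup_right (Ideal.mem_sup_right (Ideal.mem_span_singleton_self _))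
  have e : Ideal.span (Set.range y) = J ⊔ H := by
    refine le_antisymm ?_ (sup_le hq (hH ▸ sup_le (hs _ (hy 1)) (sup_le (hs _ (hy 2)) (hs _ (hy 3)))))
    rw [Ideal.span_le]
    rintro _ ⟨i, rfl⟩
    fin_cases i
    · have := (J ⊔ H).sub_mem (Ideal.mem_sup_left y0)
        (Ideal.mem_sup_right (H.sub_mem (H.mul_mem_left (y 1) y2) (H.pow_mem_of_mem y3 2 two_pos)))
      simpa using this
    · exact Ideal.mem_sup_right y1
    · exact Ideal.mem_sup_right y2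
    · exact Ideal.mem_sup_right y3
  have z : ∀ a : S, a ^ 3 = 0 → Ideal.span {a} ^ 3 ≤ ⊥ := by
    intro a ha
    simp [Ideal.span_singleton_pow, ha]
  obtain ⟨m, hz⟩ : ∃ m, H ^ (m + 1) ≤ ⊥ := ⟨8, by
    rw [show 8 + 1 = 3 + (3 + 3) from rfl, hH]
    exact Ideal.sup_pow_add_le_pow_sup_pow.trans (sup_le (z _ h1)
      (Ideal.sup_pow_add_le_pow_sup_pow.trans (sup_le (z _ h2) (z _ h3))))⟩
  refine ⟨hq, m, le_antisymm ?_ ?_⟩
  · rw [pow_succ']; exact Ideal.mul_mono_left hq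
  · rw [e]; exact (red J H m).trans (sup_le le_rfl (hz.trans bot_le))

lemma reduction : IsReduction (Ideal.span {Ideal.Quotient.mk (rel k) (X 0 + (X 1 * X 2 - X 3 ^ 2))})
    (plus (rel k)) := by
  have z : ∀ i : Fin 4, X i ^ 3 ∈ rel k → Ideal.Quotient.mk (rel k) (X i) ^ 3 = 0 := by
    intro i hi
    rw [← map_pow]
    exact Ideal.Quotient.eq_zero_iff_mem.2 hi
  have e : plus (rel k) = Ideal.span (Set.range fun i => Ideal.Quotient.mk (rel k) (X i)) := by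
    rw [plus, Ideal.map_span, ← Set.range_comp]; rfl
  rw [e, map_add, map_sub, map_mul, map_pow]
  exact redS (fun i => Ideal.Quotient.mk (rel k) (X i)) (z 1 (Ideal.subset_span ⟨0, rfl⟩)) (z 2 (Ideal.subset_span ⟨1, rfl⟩))
    (z 3 (Ideal.subset_span ⟨2, rfl⟩))

lemma notmem (s : MvPolynomial (Fin 4) k) (h : s * (X 0 * (X 1 * X 2 * X 3 ^ 2)) ∈
    Ideal.span {X 0 + (X 1 * X 2 - X 3 ^ 2)} ⊔ rel k) : coeff 0 s = 0 := by
  let Φ : MvPolynomial (Fin 4) k →ₐ[k] MvPolynomial (Fin 4) k :=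
    aeval ![X 3 ^ 2 - X 1 * X 2, X 1, X 2, X 3]
  let K : Ideal (MvPolynomial (Fin 4) k) := Ideal.span (Set.range ![X 1 ^ 3, X 2 ^ 3, X 3 ^ 3])
  have mK : ∀ u v w f : MvPolynomial (Fin 4) k, f = u * X 1 ^ 3 + v * X 2 ^ 3 + w * X 3 ^ 3 → f ∈ K :=
    fun u v w f hf => Ideal.mem_span_range_iff_exists_fun.2
      ⟨![u, v, w], by rw [hf]; simp [Fin.sum_univ_succ]; ring⟩
  have h1 : Ideal.span {X 0 + (X 1 * X 2 - X 3 ^ 2)} ⊔ rel k ≤ K.comap Φ := by
    refine sup_le ((Ideal.span_singleton_le_iff_mem _).2 (by simp [Φ])) ?_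
    rw [rel, Ideal.span_le]
    rintro _ ⟨i, rfl⟩
    rw [SetLike.mem_coe, Ideal.mem_comap]
    fin_cases i
    · exact mK 1 0 0 _ (by simp [Φ, gens])
    · exact mK 0 1 0 _ (by simp [Φ, gens])
    · exact mK 0 0 1 _ (by simp [Φ, gens])
    · exact mK (-X 2 ^ 3) 0 (X 1 * X 2 * X 3) _ (by simp [Φ, gens]; ring)
    · exact mK (-X 2 * X 3 ^ 2) 0 (X 1 ^ 2 * X 3) _ (by simp [Φ, gens]; ring)
    · exact mK (-X 2 ^ 2 * X 3) 0 (X 1 ^ 2 * X 2) _ (by simp [Φ, gens]; ring)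
  have h2 : ∀ f ∈ idealOfVars (Fin 4) k, f * (X 0 * (X 1 * X 2 * X 3 ^ 2)) ∈ K.comap Φ := by
    intro f hf
    obtain ⟨u, rfl⟩ := Ideal.mem_span_range_iff_exists_fun.1 hf
    rw [Finset.sum_mul]
    refine Ideal.sum_mem _ fun i _ => ?_
    rw [mul_assoc]
    refine Ideal.mul_mem_left _ _ (Ideal.mem_comap.2 ?_)
    fin_cases i
    · exact mK (X 2 ^ 3 * X 3 ^ 2) 0 (X 1 * X 2 * X 3 ^ 3 - 2 * X 1 ^ 2 * X 2 ^ 2 * X 3) _
        (by simp [Φ]; ring)
    · exact mK (-X 2 ^ 2 * X 3 ^ 2) 0 (X 1 ^ 2 * X 2 * X 3) _ (by simp [Φ]; ring)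
    · exact mK 0 (-X 1 ^ 2 * X 3 ^ 2) (X 1 * X 2 ^ 2 * X 3) _ (by simp [Φ]; ring)
    · exact mK 0 0 (X 1 * X 2 * X 3 ^ 2 - X 1 ^ 2 * X 2 ^ 2) _ (by simp [Φ]; ring)
  have h3 := K.sub_mem (K.sub_mem (h2 (s - C (coeff 0 s)) (by simp [memM])) (h1 h))
    (mK 0 0 (-C (coeff 0 s) * X 1 * X 2 * X 3) _ rfl)
  let τ : Fin 4 →₀ ℕ := Finsupp.single 1 2 + Finsupp.single 2 2 + Finsupp.single 3 2
  have e : ∀ a : k, (monomial τ a : MvPolynomial (Fin 4) k) = C a * (X 1 ^ 2 * X 2 ^ 2 * X 3 ^ 2) := by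
    intro a
    simp [τ, X_pow_eq_monomial, C_mul_monomial]
  have h4 : monomial τ (coeff 0 s) ∈ K := by
    have e2 : ∀ a b : MvPolynomial (Fin 4) k, a = b → a ∈ K → b ∈ K := fun a b h => h ▸ id
    refine e2 _ _ ?_ h3
    rw [e, ← map_sub, ← sub_mul]
    simp [Φ]; ring
  obtain ⟨u, hu⟩ := Ideal.mem_span_range_iff_exists_fun.1 h4
  have h5 := congrArg (coeff τ) hu
  have z : ∀ (i : Fin 4) (f : MvPolynomial (Fin 4) k), coeff τ (f * X i ^ 3) = 0 := by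
    intro i f
    rw [X_pow_eq_monomial, coeff_mul_monomial', if_neg]
    rw [Finsupp.single_le_iff]
    fin_cases i <;> simp [τ]
  simpa [Fin.sum_univ_succ, z] using h5.symm

lemma loc {A : Type*} [CommRing A] (P G J : Ideal A) [P.IsPrime] (g : A) (hg : g ∈ G)
    (hJ : IsReduction J P) (h : core (S := Localization.AtPrime P) (IsLocalRing.maximalIdeal _) =
      G.map (algebraMap A (Localization.AtPrime P))) : ∃ s, s ∉ P ∧ s * g ∈ J := by
  have h1 := Ideal.mem_map_of_mem (algebraMap _ (Localization.AtPrime P)) hg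
  rw [← h] at h1
  obtain ⟨r1, n, r2⟩ := hJ
  have hm := Localization.AtPrime.map_eq_maximalIdeal (I := P)
  have h2 := Submodule.mem_sInf.1 h1 (Ideal.map (algebraMap _ _) J) ⟨hm ▸ Ideal.map_mono r1, n, by
    rw [← hm, ← Ideal.map_pow, ← Ideal.map_pow, ← Ideal.map_mul, r2]⟩
  exact (IsLocalization.algebraMap_mem_map_algebraMap_iff P.primeCompl _ _ _).1 h2

lemma mem_gradedCore :
    Ideal.Quotient.mk (rel k) (X 0 * (X 1 * X 2 * X 3 ^ 2)) ∈ gradedCore (rel k) := by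
  have hs := Ideal.Quotient.mk_surjective (I := rel k)
  refine Submodule.mem_sInf.2 fun J hJ => ?_
  obtain ⟨⟨h1, n, h2⟩, h3⟩ := hJ
  refine graded (Ideal.comap (Ideal.Quotient.mk (rel k)) J) (fun f hf => ?_) ?_ h3 n ?_
  · rw [Ideal.mem_comap, Ideal.Quotient.eq_zero_iff_mem.2 hf]; exact J.zero_mem
  · refine (Ideal.comap_mono h1).trans ?_
    rw [Ideal.comap_map_of_surjective _ hs, ← RingHom.ker_eq_comap_bot, Ideal.mk_ker]
    exact sup_le le_rfl rel_le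
  · rw [← Ideal.mem_quotient_iff_mem_sup, Ideal.map_mul, Ideal.map_comap_of_surjective _ hs,
      Ideal.map_pow, h2, map_pow]
    exact Ideal.pow_mem_pow (Ideal.mem_map_of_mem _ (XM 0)) _

lemma plus_prime : (plus (rel k)).IsPrime := by
  have : (idealOfVars (Fin 4) k).IsPrime := by
    have : idealOfVars (Fin 4) k = RingHom.ker constantCoeff := by
      ext f; rw [memM, RingHom.mem_ker, constantCoeff_eq]
    rw [this]; exact RingHom.ker_isPrime _
  exact Ideal.map_isPrime_of_surjective Ideal.Quotient.mk_surjective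
    (by rw [Ideal.mk_ker]; exact rel_le)

theorem result (k : Type*) [Field k] : ∃ I : Ideal (MvPolynomial (Fin 4) k),
    Homog I ∧ I ≤ idealOfVars (Fin 4) k ∧ ∃ _ : (plus I).IsPrime,
      core (S := Localization.AtPrime (plus I)) (IsLocalRing.maximalIdeal _) ≠
        (gradedCore I).map
          (algebraMap (MvPolynomial (Fin 4) k ⧸ I) (Localization.AtPrime (plus I))) := by
  refine ⟨rel k, homog_rel, rel_le, plus_prime, fun h => ?_⟩
  obtain ⟨s, s1, s2⟩ := @loc _ _ _ _ _ plus_prime _ mem_gradedCore reduction h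
  obtain ⟨s, rfl⟩ := Ideal.Quotient.mk_surjective s
  rw [← map_mul, ← Set.image_singleton, ← Ideal.map_span, Ideal.mem_quotient_iff_mem_sup] at s2
  exact s1 (Ideal.mem_map_of_mem _ ((memM s).2 (notmem s s2)))

end Pool.Agent.Results.MP_429122_al.GradedCore
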